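import Pool.Agent.FTU.Stmts

/-!
# Squad FTU, row SMX: averages over the field of displaced trial functions are smooth
-/

set_option autoImplicit false

open MeasureTheory Complex ProbabilityTheory MvPolynomial

noncomputable section

namespace Pool.Agent.FTU.H6

open Pool.Agent.Helper49_Pauli
open Pool.Agent.MBX
open Pool.Agent.FTU
open Pool.Agent.Loc (γn PB)

variable {ι : Type} [Fintype ι] [DecidableEq ι]

/-- the derivative of a trial function, all components -/
def DD (j : Fin 3) (psi : (ι → ℝ) → X3 → S2) : (ι → ℝ) → X3 → S2 :=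
  fun y x s => dX j (fun y x => psi y x s) y x

/-- average with the weight `W` -/
def GG (W : (ι → ℝ) → ℂ) (psi : (ι → ℝ) → X3 → S2) (s : Fin 2) (x : X3) : ℂ :=
  ∫ y, W y * psi y x s ∂(γn ι)

/-- the polynomial bound is of exponential growth -/
theorem EG_prod (m : ℕ) : EG fun y : ι → ℝ => ((∏ i, (1 + |y i|) ^ m : ℝ) : ℂ) := by
  refine ⟨by fun_prop, (m : ℝ) + 1, fun y => ?_⟩
  have hnn : 0 ≤ ∏ i, (1 + |y i|) ^ m :=
    Finset.prod_nonneg fun i _ => pow_nonneg (by positivity) _
  rw [Complex.norm_real, Real.norm_eq_abs, abs_of_nonneg hnn]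
  have h1 : ∏ i, (1 + |y i|) ^ m ≤ ∏ i, Real.exp ((m : ℝ) * |y i|) := by
    refine Finset.prod_le_prod (fun i _ => pow_nonneg (by positivity) _) fun i _ => ?_
    rw [Real.exp_nat_mul]
    refine pow_le_pow_left₀ (by positivity) ?_ m
    have := Real.add_one_le_exp (|y i|)
    linarith
  have h2 : ∏ i, Real.exp ((m : ℝ) * |y i|) = Real.exp ((m : ℝ) * ∑ i, |y i|) := by
    rw [← Real.exp_sum, Finset.mul_sum]
  have hs : 0 ≤ ∑ i, |y i| := Finset.sum_nonneg fun i _ => abs_nonneg _
  have h3 : Real.exp ((m : ℝ) * ∑ i, |y i|) ≤ Real.exp (((m : ℝ) + 1) * ∑ i, |y i|) := by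
    refine Real.exp_le_exp.2 (mul_le_mul_of_nonneg_right (by linarith) hs)
  have h4 : 0 < Real.exp (((m : ℝ) + 1) * ∑ i, |y i|) := Real.exp_pos _
  have hm : (0 : ℝ) ≤ m := Nat.cast_nonneg m
  calc ∏ i, (1 + |y i|) ^ m ≤ Real.exp (((m : ℝ) + 1) * ∑ i, |y i|) := by
        rw [h2] at h1
        exact h1.trans h3
    _ ≤ ((m : ℝ) + 1) * Real.exp (((m : ℝ) + 1) * ∑ i, |y i|) := by nlinarith

theorem int_bound (hegc : EgcStmt) {W : (ι → ℝ) → ℂ} (hW : EG W) (C : ℝ) (m : ℕ) :
    Integrable (fun y => ‖W y‖ * (C * ∏ i, (1 + |y i|) ^ m)) (γn ι) := by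
  have h1 := (hegc ι).1 W _ hW (EG_prod (ι := ι) m)
  have h2 := ((hegc ι).2.1 _ h1.2).2.1
  have h3 := h2.norm.const_mul C
  refine h3.congr (Filter.Eventually.of_forall fun y => ?_)
  have hnn : 0 ≤ ∏ i, (1 + |y i|) ^ m :=
    Finset.prod_nonneg fun i _ => pow_nonneg (by positivity) _
  simp only [norm_mul, Complex.norm_real, Real.norm_eq_abs, abs_of_nonneg hnn]
  ring

/-- the derivative as a linear map -/
def LL (c : Fin 3 → ℂ) : X3 →L[ℝ] ℂ :=
  ∑ j, (ContinuousLinearMap.proj (R := ℝ) (φ := fun _ : Fin 3 => ℝ) j).smulRight (c j)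

theorem LL_single (c : Fin 3 → ℂ) (j : Fin 3) : LL c (Pi.single j 1) = c j := by
  simp [LL, Pi.single_apply]

theorem eq_LL (A : X3 →L[ℝ] ℂ) : A = LL fun j => A (Pi.single j 1) := by
  ext v
  have hv : v = ∑ j, v j • (Pi.single j (1 : ℝ) : X3) := by
    ext k
    simp [Pi.single_apply]
  conv_lhs => rw [hv]
  simp [LL, map_sum]

theorem norm_LL (c : Fin 3 → ℂ) : ‖LL c‖ ≤ ∑ j, ‖c j‖ := by
  unfold LL
  refine (norm_sum_le _ _).trans (Finset.sum_le_sum fun j _ => ?_)
  rw [ContinuousLinearMap.norm_smulRight_apply]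
  have : ‖(ContinuousLinearMap.proj (R := ℝ) (φ := fun _ : Fin 3 => ℝ) j)‖ ≤ 1 := by
    refine ContinuousLinearMap.opNorm_le_bound _ zero_le_one fun v => ?_
    rw [one_mul]
    exact norm_le_pi_norm v j
  calc ‖(ContinuousLinearMap.proj (R := ℝ) (φ := fun _ : Fin 3 => ℝ) j)‖ * ‖c j‖
      ≤ 1 * ‖c j‖ := mul_le_mul_of_nonneg_right this (norm_nonneg _)
    _ = ‖c j‖ := one_mul _

theorem LL_integral {W : (ι → ℝ) → ℂ} (f : Fin 3 → (ι → ℝ) → ℂ)
    (hf : ∀ j, Integrable (fun y => W y * f j y) (γn ι)) :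
    ∫ y, W y • LL (fun j => f j y) ∂(γn ι) = LL fun j => ∫ y, W y * f j y ∂(γn ι) := by
  have h1 : ∀ y, W y • LL (fun j => f j y) =
      ∑ j, (ContinuousLinearMap.smulRightL ℝ X3 ℂ
        (ContinuousLinearMap.proj (R := ℝ) (φ := fun _ : Fin 3 => ℝ) j)) (W y * f j y) := by
    intro y
    unfold LL
    rw [Finset.smul_sum]
    refine Finset.sum_congr rfl fun j _ => ?_
    ext v
    show W y • (v j • f j y) = v j • (W y * f j y)
    simp only [smul_eq_mul, Complex.real_smul]
    ring
  simp only [h1]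
  rw [integral_finsetSum]
  · unfold LL
    refine Finset.sum_congr rfl fun j _ => ?_
    rw [ContinuousLinearMap.integral_comp_comm _ (hf j)]
    rfl
  · intro j _
    exact ContinuousLinearMap.integrable_comp _ (hf j)

variable (hpsa : PsaStmt) (htcd : TcdStmt) (hegc : EgcStmt)

include htcd hegc

theorem integrable_GG {W : (ι → ℝ) → ℂ} (hW : EG W) {psi : (ι → ℝ) → X3 → S2} (hpsi : TC psi)
    (s : Fin 2) (x : X3) : Integrable (fun y => W y * psi y x s) (γn ι) := by
  obtain ⟨-, -, -, -, -, -, hcont, C, m, R, hC, hb⟩ := htcd ι psi hpsi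
  refine (int_bound hegc hW C m).mono' ?_ (Filter.Eventually.of_forall fun y => ?_)
  · refine Continuous.aestronglyMeasurable ?_
    refine hW.1.mul ?_
    exact (continuous_apply s).comp (hcont.comp (Continuous.prodMk_left x))
  · rw [norm_mul]
    exact mul_le_mul_of_nonneg_left ((hb y x).1 s) (norm_nonneg _)

theorem hasFDerivAt_GG {W : (ι → ℝ) → ℂ} (hW : EG W) {psi : (ι → ℝ) → X3 → S2} (hpsi : TC psi)
    (s : Fin 2) (x : X3) :
    HasFDerivAt (GG W psi s) (LL fun j => GG W (DD j psi) s x) x := by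
  have hD : ∀ j, TC (DD j psi) := (htcd ι psi hpsi).2.1
  have hsm : ∀ y, CS2 (psi y) := (htcd ι psi hpsi).1
  have hdiff : ∀ y x, DifferentiableAt ℝ (fun x => psi y x s) x := fun y x =>
    ((hsm y s).1.differentiable (by simp)) x
  have hfd : ∀ y x, fderiv ℝ (fun x => psi y x s) x = LL fun j => DD j psi y x s := fun y x =>
    eq_LL _
  choose C m R hC hb using fun j => (htcd ι (DD j psi) (hD j)).2.2.2.2.2.2.2
  have hcontD : ∀ j, Continuous fun z : (ι → ℝ) × X3 => DD j psi z.1 z.2 := fun j =>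
    (htcd ι (DD j psi) (hD j)).2.2.2.2.2.2.1
  have hcont : Continuous fun z : (ι → ℝ) × X3 => psi z.1 z.2 :=
    (htcd ι psi hpsi).2.2.2.2.2.2.1
  have hmeas : ∀ x, AEStronglyMeasurable (fun y => W y * psi y x s) (γn ι) := fun x =>
    Continuous.aestronglyMeasurable (hW.1.mul
      ((continuous_apply s).comp (hcont.comp (Continuous.prodMk_left x))))
  have key := hasFDerivAt_integral_of_dominated_of_fderiv_le (𝕜 := ℝ) (μ := γn ι)
    (F := fun x y => W y * psi y x s)
    (F' := fun x y => W y • LL fun j => DD j psi y x s) (x₀ := x) (s := Set.univ)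
    (bound := fun y => ∑ j, ‖W y‖ * (C j * ∏ i, (1 + |y i|) ^ m j)) Filter.univ_mem
    (Filter.Eventually.of_forall hmeas) (integrable_GG htcd hegc hW hpsi s x) ?_ ?_ ?_ ?_
  · rw [LL_integral (fun j y => DD j psi y x s)
      fun j => integrable_GG htcd hegc hW (hD j) s x] at key
    exact key
  · have : (fun y => W y • LL fun j => DD j psi y x s) =
        fun y => W y • ∑ j, (ContinuousLinearMap.smulRightL ℝ X3 ℂ
          (ContinuousLinearMap.proj (R := ℝ) (φ := fun _ : Fin 3 => ℝ) j)) (DD j psi y x s) := rfl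
    rw [this]
    refine Continuous.aestronglyMeasurable (hW.1.smul (continuous_finsetSum _ fun j _ => ?_))
    exact (ContinuousLinearMap.continuous _).comp
      ((continuous_apply s).comp ((hcontD j).comp (Continuous.prodMk_left x)))
  · refine Filter.Eventually.of_forall fun y x' _ => ?_
    rw [norm_smul, ← Finset.mul_sum]
    refine mul_le_mul_of_nonneg_left ((norm_LL _).trans ?_) (norm_nonneg _)
    exact Finset.sum_le_sum fun j _ => (hb j y x').1 s
  · exact integrable_finsetSum _ fun j _ => int_bound hegc hW (C j) (m j)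
  · refine Filter.Eventually.of_forall fun y x' _ => ?_
    have h1 := (hdiff y x').hasFDerivAt.const_mul (W y)
    rw [hfd y x'] at h1
    exact h1

theorem contDiff_GG {W : (ι → ℝ) → ℂ} (hW : EG W) (n : ℕ) : ∀ {psi : (ι → ℝ) → X3 → S2},
    TC psi → ∀ s : Fin 2, ContDiff ℝ n (GG W psi s) := by
  induction n with
  | zero =>
    intro psi hpsi s
    rw [Nat.cast_zero, contDiff_zero]
    exact continuous_iff_continuousAt.2 fun x =>
      (hasFDerivAt_GG htcd hegc hW hpsi s x).continuousAt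
  | succ n ih =>
    intro psi hpsi s
    have hD : ∀ j, TC (DD j psi) := (htcd ι psi hpsi).2.1
    rw [show ((n + 1 : ℕ) : WithTop ℕ∞) = (n : WithTop ℕ∞) + 1 by push_cast; rfl,
      contDiff_succ_iff_fderiv]
    refine ⟨fun x => (hasFDerivAt_GG htcd hegc hW hpsi s x).differentiableAt, ?_, ?_⟩
    · intro h
      exact absurd h (by simp)
    · have h1 : fderiv ℝ (GG W psi s) = fun x => ∑ j, (ContinuousLinearMap.smulRightL ℝ X3 ℂ
          (ContinuousLinearMap.proj (R := ℝ) (φ := fun _ : Fin 3 => ℝ) j))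
            (GG W (DD j psi) s x) := by
        funext x
        rw [(hasFDerivAt_GG htcd hegc hW hpsi s x).fderiv]
        rfl
      rw [h1]
      refine ContDiff.sum fun j _ => ?_
      exact (ContinuousLinearMap.contDiff _).comp (ih (hD j) s)

omit hegc in
theorem supp_GG {W : (ι → ℝ) → ℂ} {psi : (ι → ℝ) → X3 → S2} (hpsi : TC psi)
    (s : Fin 2) : HasCompactSupport (GG W psi s) := by
  obtain ⟨-, -, -, -, -, -, -, C, m, R, hC, hb⟩ := htcd ι psi hpsi
  refine HasCompactSupport.of_support_subset_isCompact (isCompact_closedBall (0 : X3) R) ?_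
  intro x hx
  by_contra hR
  apply hx
  rw [mem_closedBall_zero_iff, not_le] at hR
  unfold GG
  have : ∀ y, W y * psi y x s = 0 := by
    intro y
    rw [(hb y x).2 hR.le]
    simp
  simp [this]

omit hegc in
theorem shift_TC {psi : (ι → ℝ) → X3 → S2} (hpsi : TC psi) (e : ι → ℝ) :
    TC fun y x => psi (fun i => y i - e i) x := by
  have := (htcd ι psi hpsi).2.2.2.1 (fun i => -e i)
  simpa only [← sub_eq_add_neg] using this

theorem smx_aux : SmxStmt := by
  intro ι _ _ e psi hpsi P s
  set W : (ι → ℝ) → ℂ := fun y => pe P y * (gz e y : ℂ) with hWdef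
  have hW : EG W := ((hegc ι).1 _ _ ((hegc ι).2.2.1 P) ((hegc ι).2.2.2.1 e)).2
  have hT : TC fun y x => psi (fun i => y i - e i) x := shift_TC htcd hpsi e
  have heq : (fun x => ∫ y, pe P y * dsp e psi y x s ∂(γn ι)) =
      GG W (fun y x => psi (fun i => y i - e i) x) s := by
    funext x
    unfold GG
    refine integral_congr_ae (Filter.Eventually.of_forall fun y => ?_)
    simp only [dsp, hWdef, Pi.smul_apply, smul_eq_mul]
    ring
  refine ⟨⟨?_, ?_⟩, ?_⟩
  · rw [heq]
    exact contDiff_infty.2 fun n => contDiff_GG htcd hegc hW n hT s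
  · rw [heq]
    exact supp_GG htcd hT s
  · intro j x
    rw [heq, (hasFDerivAt_GG htcd hegc hW hT s x).fderiv, LL_single]
    unfold GG
    refine integral_congr_ae (Filter.Eventually.of_forall fun y => ?_)
    have hd : DifferentiableAt ℝ (fun x => psi (fun i => y i - e i) x s) x :=
      (((htcd ι _ hT).1 y s).1.differentiable (by simp)) x
    have h2 : dX j (fun y x => dsp e psi y x s) y x =
        (gz e y : ℂ) * DD j (fun y x => psi (fun i => y i - e i) x) y x s := by
      show fderiv ℝ (fun x => dsp e psi y x s) x (Pi.single j 1) =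
        (gz e y : ℂ) * fderiv ℝ (fun x => psi (fun i => y i - e i) x s) x (Pi.single j 1)
      have : (fun x => dsp e psi y x s) = fun x => (gz e y : ℂ) * psi (fun i => y i - e i) x s := by
        funext x
        simp [dsp]
      rw [this, fderiv_const_mul hd]
      simp
    show W y * _ = pe P y * _
    rw [h2]
    simp only [hWdef]
    ring

omit htcd hegc in
theorem smx (_h1 : PsaStmt) (h2 : TcdStmt) (h3 : EgcStmt) : SmxStmt := smx_aux h2 h3

end Pool.Agent.FTU.H6
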